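import Pool.Agent.P.MP_944056_co.Main

namespace Pool.Agent.Results.MP_944056_co.StarCutset

open Pool.Agent.P.MP_944056_co

theorem result : ∃ (V : Type) (_ : Finite V) (G : SimpleGraph V),
    ¬ PerfectlyContractile G ∧
    (∀ S : Set V, S ≠ Set.univ → PerfectlyContractile (G.induce S)) ∧
    HasStarCutset G :=
  Pool.Agent.P.MP_944056_co.main

end Pool.Agent.Results.MP_944056_co.StarCutset
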